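import Mathlib.Combinatorics.Hall.Basic
import Mathlib.Data.Real.Basic
import Mathlib.Logic.Equiv.Basic
import Mathlib.Data.Fintype.Perm
import Mathlib.Data.Fintype.BigOperators
import Mathlib.Algebra.BigOperators.Group.Finset.Basic
import Mathlib.Algebra.Order.BigOperators.Group.Finset
import Mathlib.Logic.Relation

/-!
# Project PV: partitions of highly strong tournaments with prescribed vertices

Statements of the lemma jobs of the project (full answer YES of `MP_a8780a_co`).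
All sets of vertices are finsets, `rv r` is the reversed relation.
-/

set_option autoImplicit false

namespace Pool.Agent.Q125.PV

/-- `r` is (the arc relation of) a tournament. -/
def Tour {V : Type} (r : V → V → Prop) : Prop :=
  (∀ v, ¬ r v v) ∧ ∀ u v, u ≠ v → (r u v ↔ ¬ r v u)

/-- `v` can be reached from `u` by a directed walk all of whose arcs lie inside `U`. -/
def Rch {V : Type} (r : V → V → Prop) (U : Finset V) (u v : V) : Prop :=
  Relation.ReflTransGen (fun a b => a ∈ U ∧ b ∈ U ∧ r a b) u v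

/-- The subdigraph induced on `U` is `k`-strong. -/
def KS {V : Type} [DecidableEq V] (r : V → V → Prop) (k : ℕ) (U : Finset V) : Prop :=
  k + 1 ≤ U.card ∧ ∀ S : Finset V, S ⊆ U → S.card < k →
    ∀ u ∈ U \ S, ∀ v ∈ U \ S, Rch r (U \ S) u v

/-- The reversed relation. -/
def rv {V : Type} (r : V → V → Prop) : V → V → Prop := fun a b => r b a

instance instDecRv {V : Type} (r : V → V → Prop) [h : DecidableRel r] : DecidableRel (rv r) :=
  fun a b => h b a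

/-- Out-neighbourhood; the in-neighbourhood is `outN (rv r) u`. -/
def outN {V : Type} [Fintype V] (r : V → V → Prop) [DecidableRel r] (u : V) : Finset V :=
  Finset.univ.filter (fun v => r u v)

/-- `M` disjoint directed paths `P c 0, P c 1, …, P c (m c)` in `U` from `Z` to `Z'`. -/
structure IsPS {V : Type} (r : V → V → Prop) (U Z Z' : Finset V) {M : ℕ}
    (m : Fin M → ℕ) (P : Fin M → ℕ → V) : Prop where
  st : ∀ c, P c 0 ∈ Z
  en : ∀ c, P c (m c) ∈ Z'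
  mem : ∀ c j, j ≤ m c → P c j ∈ U
  arc : ∀ c j, j < m c → r (P c j) (P c (j + 1))
  inj : ∀ c c' j j', j ≤ m c → j' ≤ m c' → P c j = P c' j' → c = c' ∧ j = j'

/-- The vertices of the `c`-th path. -/
def vtc {V : Type} [DecidableEq V] {M : ℕ} (m : Fin M → ℕ) (P : Fin M → ℕ → V) (c : Fin M) :
    Finset V :=
  (Finset.range (m c + 1)).image (P c)

/-- The vertices of all paths. -/
def vts {V : Type} [DecidableEq V] {M : ℕ} (m : Fin M → ℕ) (P : Fin M → ℕ → V) : Finset V :=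
  Finset.univ.biUnion (fun c => vtc m P c)

/-- The vertices `P c j` of the `c`-th path with `3 ≤ j` and `j + 3 ≤ m c`. -/
def innc {V : Type} [DecidableEq V] {M : ℕ} (m : Fin M → ℕ) (P : Fin M → ℕ → V) (c : Fin M) :
    Finset V :=
  ((Finset.range (m c + 1)).filter (fun j => 3 ≤ j ∧ j + 3 ≤ m c)).image (P c)

/-- The vertices `P c j` of all paths with `3 ≤ j` and `j + 3 ≤ m c`. -/
def inn {V : Type} [DecidableEq V] {M : ℕ} (m : Fin M → ℕ) (P : Fin M → ℕ → V) : Finset V :=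
  Finset.univ.biUnion (fun c => innc m P c)

/-- The reversed paths. -/
def revP {V : Type} {M : ℕ} (m : Fin M → ℕ) (P : Fin M → ℕ → V) : Fin M → ℕ → V :=
  fun c j => P c (m c - j)

/-- A path system of minimal total length. -/
def MinPS {V : Type} (r : V → V → Prop) (U Z Z' : Finset V) {M : ℕ}
    (m : Fin M → ℕ) (P : Fin M → ℕ → V) : Prop :=
  IsPS r U Z Z' m P ∧ ∀ (m' : Fin M → ℕ) (P' : Fin M → ℕ → V), IsPS r U Z Z' m' P' →
    ∑ c, m c ≤ ∑ c, m' c

/-- The two properties of out-neighbourhoods with respect to a good path system. -/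
structure LOut {V : Type} [Fintype V] [DecidableEq V] (r : V → V → Prop) [DecidableRel r]
    (U : Finset V) (K : ℕ) {M : ℕ} (m : Fin M → ℕ) (P : Fin M → ℕ → V) : Prop where
  a : ∀ u ∈ U, u ∉ vts m P → (outN r u ∩ vts m P).card ≤ 5 * M ∨
    K * (outN r u ∩ vts m P).card ≤ 3 * M * ((outN r u ∩ U) \ vts m P).card
  b : ∀ c j, 3 ≤ j → j < m c → (j - 2) * K ≤ ((outN r (P c j) ∩ U) \ vts m P).card

/-! ### Basic lemmas -/

/-- Job DEG. If `deg⁺ u < N`, delete `S = outN r u`; another vertex is left and `u` cannot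
leave itself. -/
def S_DEG : Prop := ∀ (V : Type) [Fintype V] [DecidableEq V] (r : V → V → Prop) [DecidableRel r],
  Tour r → ∀ N : ℕ, KS r N Finset.univ → ∀ u, N ≤ (outN r u).card

/-- Job STR. -/
def S_STR : Prop := ∀ (V : Type) [Fintype V] [DecidableEq V] (r : V → V → Prop)
  (N H : ℕ) (D : Finset V), KS r N Finset.univ → D.card + H ≤ N → KS r H (Finset.univ \ D)

/-- Job REV (a bundle of easy facts on reversal). -/
def S_REV : Prop := ∀ (V : Type) [Fintype V] [DecidableEq V] (r : V → V → Prop),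
  (Tour r → Tour (rv r)) ∧
  (∀ (k : ℕ) (U : Finset V), KS r k U → KS (rv r) k U) ∧
  (∀ (M : ℕ) (m : Fin M → ℕ) (P : Fin M → ℕ → V),
    vts m (revP m P) = vts m P ∧ inn m (revP m P) = inn m P ∧
    (∀ c, vtc m (revP m P) c = vtc m P c) ∧ (∀ c, innc m (revP m P) c = innc m P c) ∧
    ∀ (U Z Z' : Finset V), (IsPS r U Z Z' m P → IsPS (rv r) U Z' Z m (revP m P)) ∧
      (MinPS r U Z Z' m P → MinPS (rv r) U Z' Z m (revP m P)))

/-- Job CNT: in a tournament at most `2 d + 1` vertices have out-degree at most `d` (count the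
arcs inside the set of these vertices). -/
def S_CNT : Prop := ∀ (V : Type) [Fintype V] [DecidableEq V] (r : V → V → Prop) [DecidableRel r],
  Tour r → ∀ d : ℕ, (Finset.univ.filter (fun u => (outN r u).card ≤ d)).card ≤ 2 * d + 1

/-! ### Absorbing families -/

/-- `(A b)` is a family of sets of size at most `ℓ`, `s b` a sink of `A b`, and for every `b` at
most `2^{-(ℓ-1)} · deg⁺ u` vertices outside `Y` are dominated by all of `A b`. -/
structure AbsF {V : Type} [Fintype V] [DecidableEq V] (r : V → V → Prop) [DecidableRel r]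
    (Y : Finset V) (ℓ : ℕ) {M : ℕ} (A : Fin M → Finset V) (s : Fin M → V) : Prop where
  mem : ∀ b, s b ∈ A b
  card : ∀ b, (A b).card ≤ ℓ
  sink : ∀ b, ∀ a ∈ A b, a ≠ s b → r a (s b)
  few : ∀ b u, u ∉ Y → 2 ^ (ℓ - 1) *
    (Finset.univ.filter (fun v => v ∉ Y ∧ ∀ a ∈ A b, r a v)).card ≤ (outN r u).card

/-- Job FO (one absorbing set inside a nonempty set `R` of vertices). Proof: `v₁ ∈ R` of minimum
out-degree inside `R`, `E₁ = N⁺(v₁) ∩ R`; as long as `E_j ≠ ∅` and `j < ℓ` take `v_{j+1} ∈ E_j`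
of maximum in-degree inside `E_j`, `E_{j+1} = N⁺(v_{j+1}) ∩ E_j`, so `2 |E_{j+1}| < |E_j|`. `A` is
the set of the `v_j`, `s` the last one; the vertices of `R` dominated by all of `A` are those of
the last `E_j` (induct on `ℓ`, for example first prove for all `n` and all finsets `E`: there is
`A' ⊆ E`, `|A'| ≤ n`, and if `E` and `n` are nonzero a sink `s ∈ A'`, with
`2^n |{v ∈ E : all of A' dominate v}| ≤ |E|`). -/
def S_FO : Prop := ∀ (V : Type) [Fintype V] [DecidableEq V] (r : V → V → Prop) [DecidableRel r],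
  Tour r → ∀ (R : Finset V) (ℓ : ℕ), R.Nonempty → 1 ≤ ℓ → ∃ (A : Finset V) (s : V),
    A ⊆ R ∧ s ∈ A ∧ A.card ≤ ℓ ∧ (∀ a ∈ A, a ≠ s → r a s) ∧
    ∀ u ∈ R, 2 ^ (ℓ - 1) * (R.filter (fun v => ∀ a ∈ A, r a v)).card ≤ (outN r u).card

/-- Job FAM (from `S_FO`): apply `S_FO` successively `M` times to `r` and `M` times to `rv r`, each
time to the set `R` of the vertices not yet used and not in `X`. -/
def S_FAM : Prop := ∀ (V : Type) [Fintype V] [DecidableEq V] (r : V → V → Prop) [DecidableRel r],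
  Tour r → ∀ (X : Finset V) (M ℓ : ℕ), 1 ≤ ℓ → X.card + 2 * M * ℓ < Fintype.card V →
  ∃ (A B : Fin M → Finset V) (s ρ : Fin M → V),
    (∀ b b', b ≠ b' → Disjoint (A b) (A b')) ∧ (∀ b b', b ≠ b' → Disjoint (B b) (B b')) ∧
    (∀ b b', Disjoint (A b) (B b')) ∧ (∀ b, Disjoint (A b) X) ∧ (∀ b, Disjoint (B b) X) ∧
    AbsF r (X ∪ Finset.univ.biUnion A ∪ Finset.univ.biUnion B) ℓ A s ∧
    AbsF (rv r) (X ∪ Finset.univ.biUnion A ∪ Finset.univ.biUnion B) ℓ B ρ

/-! ### Minimal path systems -/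

/-- Job POT: potentials exist when no cyclic rearrangement has negative weight.
Proof: every closed `E`-walk has weight at least `0` (strong induction on the length: a closed walk
repeating a vertex splits into two shorter ones, a closed walk without repetition is a cycle and
gives a permutation, for example by `List.formPerm`, which is the identity elsewhere). So a walk of
length at least `|α|` can be shortened without increasing its weight, and
`p v =` the minimum of the weights of the `E`-walks ending at `v` of length less than `|α|` (from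
any starting vertex, the empty walk included) works. -/
def S_POT : Prop := ∀ (α : Type) [Fintype α] [DecidableEq α] (E : α → α → Prop) (w : α → α → ℤ),
  (∀ u, E u u) → (∀ u, w u u = 0) →
  (∀ σ : Equiv.Perm α, (∀ u, E u (σ u)) → 0 ≤ ∑ u, w u (σ u)) →
  ∃ p : α → ℤ, ∀ u v, E u v → p v ≤ p u + w u v

/-- Job ASG (from `S_POT`): assignment duality. Use the weights
`w u u' = c u (π u') - c u' (π u')` and the relation `E u (π u')`; `O = p`,
`I (π u) = O u + c u (π u)`. -/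
def S_ASG : Prop := ∀ (α : Type) [Fintype α] [DecidableEq α] (E : α → α → Prop)
  (c : α → α → ℤ) (π : Equiv.Perm α), (∀ u, E u (π u)) →
  (∀ σ : Equiv.Perm α, (∀ u, E u (σ u)) → ∑ u, c u (π u) ≤ ∑ u, c u (σ u)) →
  ∃ O I : α → ℤ, (∀ u v, E u v → I v ≤ O u + c u v) ∧ ∀ u, I (π u) = O u + c u (π u)

/-- The allowed pairs of the assignment problem belonging to `Z, Z'`. -/
def Alw {V : Type} (r : V → V → Prop) (Z Z' : Finset V) (u v : V) : Prop :=
  (u ∈ Z' ∧ v ∈ Z) ∨ (u ∉ Z' ∧ v ∉ Z ∧ (v = u ∨ r u v))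

/-- Job ORB: the orbits of an allowed permutation starting in `Z`, stopped when they first hit
`Z'`, form a path system. (If `σ y ∈ Z` then `y ∈ Z'`. For `z ∈ Z` let `m z` be the least `j` with
`σ^j z ∈ Z'`; it exists, as `σ⁻¹ z ∈ Z'`. If `σ^j z = σ^j' z'` with `j ≤ j' ≤ m z'` and `j < j'`
then `σ^(j'-j-1) z' = σ⁻¹ z ∈ Z'`, against the minimality of `m z'`. Index `Z` by `Fin M`.) -/
def S_ORB : Prop := ∀ (V : Type) [Fintype V] [DecidableEq V] (r : V → V → Prop)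
  (Z Z' : Finset V) (M : ℕ) (σ : Equiv.Perm V), Disjoint Z Z' → Z.card = M →
  (∀ u, Alw r Z Z' u (σ u)) →
  ∃ (m : Fin M → ℕ) (P : Fin M → ℕ → V), IsPS r Finset.univ Z Z' m P ∧
    ∑ c, m c ≤ (Finset.univ.filter (fun u => u ∉ Z' ∧ σ u ≠ u)).card

/-- Job HAL: an allowed permutation exists in an `M`-strong digraph. Proof: Hall's theorem for the
neighbourhoods `t u = {v ∉ Z : v = u ∨ r u v}` of `u ∉ Z'`. Hall's condition: for `Q ⊆ V∖Z'` let
`Y = (⋃_{u∈Q} t u) ∖ Q`; then `⋃_{u∈Q} t u = (Q∖Z) ∪ Y`, so if the condition fails then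
`|Y| < |Q ∩ Z| ≤ M`; delete `S = Y ∪ (Z∖Q)`, `|S| < M ≤ H`. There are `q ∈ Q ∩ Z` and
`z' ∈ Z' ∖ Y`, both outside `S`, and no walk outside `S` starting at `q` leaves `Q`: a
contradiction. Hall's theorem gives an injection `V∖Z' → V∖Z`; together with a bijection `Z' → Z` it
is an injective map `V → V`, hence a permutation. -/
def S_HAL : Prop := ∀ (V : Type) [Fintype V] [DecidableEq V] (r : V → V → Prop)
  (Z Z' : Finset V) (M H : ℕ), KS r H Finset.univ → Disjoint Z Z' → Z.card = M → Z'.card = M →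
  M ≤ H → ∃ σ : Equiv.Perm V, ∀ u, Alw r Z Z' u (σ u)

/-- Job CLS: closing up the paths of a path system gives an allowed permutation
(`P c (m c) ↦ P c 0`). Note that all of `Z` is used by the starting vertices and all of `Z'` by the
end vertices of the paths. -/
def S_CLS : Prop := ∀ (V : Type) [Fintype V] [DecidableEq V] (r : V → V → Prop)
  (Z Z' : Finset V) (M : ℕ) (m : Fin M → ℕ) (P : Fin M → ℕ → V), Tour r → Disjoint Z Z' →
  Z.card = M → Z'.card = M → IsPS r Finset.univ Z Z' m P →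
  ∃ π : Equiv.Perm V, (∀ u, Alw r Z Z' u (π u)) ∧
    (∀ c j, j < m c → π (P c j) = P c (j + 1)) ∧ (∀ v, v ∉ vts m P → π v = v) ∧
    (Finset.univ.filter (fun u => u ∉ Z' ∧ π u ≠ u)).card ≤ ∑ c, m c

/-- Potentials of a path system. -/
structure Pot {V : Type} [DecidableEq V] (r : V → V → Prop) (Z Z' : Finset V) {M : ℕ}
    (m : Fin M → ℕ) (P : Fin M → ℕ → V) (O I : V → ℤ) : Prop where
  arc : ∀ u v, u ∉ Z' → v ∉ Z → r u v → I v ≤ O u + 1
  use : ∀ c j, j < m c → I (P c (j + 1)) = O (P c j) + 1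
  le : ∀ v, v ∉ Z → v ∉ Z' → I v ≤ O v
  eq : ∀ v, v ∉ vts m P → I v = O v
  nn : ∀ z ∈ Z, 0 ≤ O z
  zr : ∃ z ∈ Z, O z = 0

/-- Job DUL (from `S_ASG`, `S_ORB`, `S_CLS`): a minimal path system has potentials. The cost is
`c u v = 0` if `u ∈ Z'` or `u = v`, and `1` otherwise; the relation is `Alw r Z Z'`; the
permutation is the one of `S_CLS`, of minimal cost by `S_ORB`; finally subtract `min_Z O` from
`O` and `I`. -/
def S_DUL : Prop := ∀ (V : Type) [Fintype V] [DecidableEq V] (r : V → V → Prop)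
  (Z Z' : Finset V) (M : ℕ) (m : Fin M → ℕ) (P : Fin M → ℕ → V), Tour r → Disjoint Z Z' →
  Z.card = M → Z'.card = M → 1 ≤ M → MinPS r Finset.univ Z Z' m P →
  ∃ O I : V → ℤ, Pot r Z Z' m P O I

/-- Job CUT. Let `C = {v ∉ Z ∪ Z' : I v ≤ x ≤ O v} ∪ {z ∈ Z : x ≤ O z}`. No walk from a `z₀ ∈ Z`
with `O z₀ = 0` that avoids `C ∪ Z'` reaches `u`: by induction all its vertices `a` have
`a ∉ Z'` and `O a < x` (a step `a → b`, `b ∉ Z`, gives `I b ≤ O a + 1 ≤ x`, and `b ∉ C`). But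
`O u ≥ I u > x`. Hence `|C| + |Z'| ≥ H`. Each path meets `C` at most once, as
`I (P c (j+1)) = O (P c j) + 1` makes the intervals `[I v, O v]` along a path disjoint and
increasing. So at least `H - 2M` vertices of `C` are on no path; there `I = O = x`. -/
def S_CUT : Prop := ∀ (V : Type) [Fintype V] [DecidableEq V] (r : V → V → Prop)
  (Z Z' : Finset V) (M H : ℕ) (m : Fin M → ℕ) (P : Fin M → ℕ → V) (O I : V → ℤ), Tour r →
  Disjoint Z Z' → Z.card = M → Z'.card = M → KS r H Finset.univ → IsPS r Finset.univ Z Z' m P →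
  Pot r Z Z' m P O I → ∀ (u : V) (x : ℤ), u ∉ Z → u ∉ Z' → 1 ≤ x → x + 1 ≤ I u →
  H ≤ (Finset.univ.filter (fun v => v ∉ vts m P ∧ O v = x)).card + 2 * M

/-- Job LKH (from `S_DUL`, `S_CUT`). Write `U_x = {v ∉ vts : O v = x}`; `I (P c j) ≥ j` for
`1 ≤ j`, `O (P c j) ≥ j` for `j < m c`. If `u ∉ Z ∪ Z'` then `|U_x| ≥ H - 2M` for `1 ≤ x < I u`,
and `u` dominates all of `U_x` for `x ≤ I u - 2` (from `v → u`, `v ∈ U_x`, follows
`I u ≤ x + 1`). (b): use `x = 1, …, j - 2`. (a): let `y = I u = O u`. If `u → P c j` with `j ≥ 1`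
then `j ≤ I (P c j) ≤ y + 1`; so `|N⁺(u) ∩ vts| ≤ M (y + 2)` if `y ≥ -1` and `≤ M` otherwise; for
`y ≤ 3` this is at most `5M`, for `y ≥ 4` use `|N⁺(u) ∖ vts| ≥ (y - 2)(H - 2M)` and
`3 (y - 2) ≥ y + 2`. -/
def S_LKH : Prop := ∀ (V : Type) [Fintype V] [DecidableEq V] (r : V → V → Prop) [DecidableRel r]
  (Z Z' : Finset V) (M H : ℕ) (m : Fin M → ℕ) (P : Fin M → ℕ → V), Tour r →
  Disjoint Z Z' → Z.card = M → Z'.card = M → KS r H Finset.univ → 1 ≤ M →
  MinPS r Finset.univ Z Z' m P → LOut r Finset.univ (H - 2 * M) m P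

/-- Job LNK (from `S_HAL`, `S_ORB`, `S_LKH`, `S_REV`): take a path system of minimal total length
and apply `S_LKH` to it and to its reversal. -/
def S_LNK : Prop := ∀ (V : Type) [Fintype V] [DecidableEq V] (r : V → V → Prop) [DecidableRel r]
  (Z Z' : Finset V) (M H : ℕ), Tour r →
  Disjoint Z Z' → Z.card = M → Z'.card = M → KS r H Finset.univ → 1 ≤ M → M ≤ H →
  ∃ (m : Fin M → ℕ) (P : Fin M → ℕ → V), IsPS r Finset.univ Z Z' m P ∧
    LOut r Finset.univ (H - 2 * M) m P ∧ LOut (rv r) Finset.univ (H - 2 * M) m (revP m P)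

/-- Job LNU (from `S_LNK`): the same inside a set `U` of vertices (apply `S_LNK` to the subtype
`↥U`, for example with `Finset.subtype` and `Finset.map`). -/
def S_LNU : Prop := ∀ (V : Type) [Fintype V] [DecidableEq V] (r : V → V → Prop) [DecidableRel r]
  (U Z Z' : Finset V) (M H : ℕ), Tour r → Z ⊆ U → Z' ⊆ U →
  Disjoint Z Z' → Z.card = M → Z'.card = M → KS r H U → 1 ≤ M → M ≤ H →
  ∃ (m : Fin M → ℕ) (P : Fin M → ℕ → V), IsPS r U Z Z' m P ∧
    LOut r U (H - 2 * M) m P ∧ LOut (rv r) U (H - 2 * M) m (revP m P)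

/-! ### The skeleton -/

/-- The skeleton: `M` chains, the `c`-th one consisting of a set `A c` with the sink `P c 0`, a
path `P c 0, …, P c (m c)` and a set `B c` with the source `P c (m c)`. -/
structure Skel {V : Type} [DecidableEq V] (r : V → V → Prop) (X : Finset V) (ℓ : ℕ)
    {M : ℕ} (A B : Fin M → Finset V) (m : Fin M → ℕ) (P : Fin M → ℕ → V) : Prop where
  dA : ∀ c c', c ≠ c' → Disjoint (A c) (A c')
  dB : ∀ c c', c ≠ c' → Disjoint (B c) (B c')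
  dAB : ∀ c c', Disjoint (A c) (B c')
  dAX : ∀ c, Disjoint (A c) X
  dBX : ∀ c, Disjoint (B c) X
  cA : ∀ c, (A c).card ≤ ℓ
  cB : ∀ c, (B c).card ≤ ℓ
  pA : ∀ c, P c 0 ∈ A c
  pB : ∀ c, P c (m c) ∈ B c
  pos : ∀ c, 1 ≤ m c
  snk : ∀ c, ∀ a ∈ A c, a ≠ P c 0 → r a (P c 0)
  src : ∀ c, ∀ b ∈ B c, b ≠ P c (m c) → r (P c (m c)) b
  arc : ∀ c j, j < m c → r (P c j) (P c (j + 1))
  inj : ∀ c c' j j', j ≤ m c → j' ≤ m c' → P c j = P c' j' → c = c' ∧ j = j'
  mid : ∀ c j, 1 ≤ j → j < m c →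
    P c j ∉ X ∪ Finset.univ.biUnion A ∪ Finset.univ.biUnion B

/-- The ordinary vertices. -/
def ord {V : Type} [Fintype V] [DecidableEq V] (Y : Finset V) {M : ℕ}
    (m : Fin M → ℕ) (P : Fin M → ℕ → V) : Finset V :=
  Finset.univ \ (Y ∪ vts m P)

/-- The vertices that have an out-neighbour in every `A c`. -/
def Ab {V : Type} [Fintype V] (r : V → V → Prop) [DecidableRel r] {M : ℕ}
    (A : Fin M → Finset V) : Finset V :=
  Finset.univ.filter (fun v => ∀ c, ∃ a ∈ A c, r v a)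

/-- The out-version of the degree properties of the skeleton. -/
structure SkH {V : Type} [Fintype V] [DecidableEq V] (r : V → V → Prop) [DecidableRel r]
    (Y : Finset V) (N : ℕ) {M : ℕ} (A : Fin M → Finset V) (m : Fin M → ℕ) (P : Fin M → ℕ → V) :
    Prop where
  deg : ∀ u, N ≤ (outN r u).card
  a : ∀ u ∈ ord Y m P, 3 * (outN r u).card ≤ 4 * (outN r u ∩ ord Y m P ∩ Ab r A).card
  b : ∀ c j, 3 ≤ j → j < m c → 3 * ((j - 2) * N) ≤ 4 * (outN r (P c j) ∩ ord Y m P).card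

/-- Job SKH. Let `d = |N⁺(u)|`, `u ∈ ord`. The vertices outside `Y` not in `Ab r A` lie in one of
the sets of `AbsF.few`, so there are at most `d/16` of them. By `LOut.a`,
`|N⁺(u) ∩ vts| ≤ 5M` or `K |N⁺(u) ∩ vts| ≤ 3 M d` where `K ≥ N - 5Mℓ ≥ 995 k M² ℓ`. So
`d ≤ 3Mℓ + 5M + 3d/995 + d/16 + |N⁺(u) ∩ ord ∩ Ab|` and `8Mℓ ≤ 8d/1000`. -/
def S_SKH : Prop := ∀ (V : Type) [Fintype V] [DecidableEq V] (r : V → V → Prop) [DecidableRel r]
  (k M ℓ N K : ℕ) (Y U : Finset V) (A : Fin M → Finset V) (s : Fin M → V) (m : Fin M → ℕ)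
  (P : Fin M → ℕ → V), Tour r → 1 ≤ k → 1 ≤ M → 1 ≤ ℓ → 16 * M = 2 ^ (ℓ - 1) →
  AbsF r Y ℓ A s → (∀ b, A b ⊆ Y) → Y.card ≤ 3 * M * ℓ →
  (∀ v, v ∉ vts m P → (v ∈ U ↔ v ∉ Y)) → (∀ u, N ≤ (outN r u).card) →
  1000 * (k * M ^ 2 * ℓ) ≤ N → N ≤ K + 5 * (M * ℓ) → LOut r U K m P → SkH r Y N A m P

/-- Job SKL (from `S_FAM`, `S_LNU`, `S_SKH`, `S_DEG`, `S_STR`, `S_REV`). `S_FAM` for `X = image x`
gives `A', B', s, ρ`; `Y = X ∪ ⋃A' ∪ ⋃B'`, `Z = image s`, `Z' = image ρ`, `U = univ ∖ (Y∖(Z∪Z'))`,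
`H = N - 3Mℓ`; `S_LNU` gives the paths; `P c 0 = s (α c)`, `P c (m c) = ρ (β c)`, `α, β` are
injective, hence bijective; `A c = A' (α c)`, `B c = B' (β c)`. A vertex `P c j` of `Y` lies in
`Z ∪ Z'`, so it is the first or the last vertex of a path. -/
def S_SKL : Prop := ∀ (V : Type) [Fintype V] [DecidableEq V] (r : V → V → Prop) [DecidableRel r]
  (k t M ℓ N : ℕ) (x : Fin t → V), Tour r → KS r N Finset.univ → Function.Injective x →
  1 ≤ k → 1 ≤ M → 1 ≤ ℓ → t ≤ M → 16 * M = 2 ^ (ℓ - 1) → 1000 * (k * M ^ 2 * ℓ) ≤ N →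
  ∃ (A B : Fin M → Finset V) (m : Fin M → ℕ) (P : Fin M → ℕ → V),
    Skel r (Finset.univ.image x) ℓ A B m P ∧
    SkH r (Finset.univ.image x ∪ Finset.univ.biUnion A ∪ Finset.univ.biUnion B) N A m P ∧
    SkH (rv r) (Finset.univ.image x ∪ Finset.univ.biUnion A ∪ Finset.univ.biUnion B) N B m
      (revP m P)

/-! ### The choice of the chains that are kept -/

/-- Job IND: greedy independent sets. -/
def S_IND : Prop := ∀ (ι : Type) [DecidableEq ι] (C : Finset ι) (R : ι → ι → Prop)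
  [DecidableRel R] (D n : ℕ), (∀ a b, R a b → R b a) →
  (∀ a ∈ C, (C.filter (fun b => b ≠ a ∧ R a b)).card ≤ D) → (D + 1) * n ≤ C.card →
  ∃ K ⊆ C, K.card = n ∧ ∀ a ∈ K, ∀ b ∈ K, a ≠ b → ¬ R a b

/-- Job CNF (from `S_IND`). Candidates: the `e ∉ Fb` with `|{d : e ∈ Req d}| ≤ 2q`; as
`∑_e |{d : e ∈ Req d}| ≤ qM`, at most `M/2` of the `e` violate the degree condition. Two candidates
`e ≠ e'` conflict if `e' ∈ Req e` or `e ∈ Req e'` or `e, e' ∈ Req d` for some `d`; at most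
`q + 2q + 2q²` candidates conflict with `e`. -/
def S_CNF : Prop := ∀ (M q t k : ℕ) (Req : Fin M → Finset (Fin M)) (Fb : Finset (Fin M)),
  (∀ d, (Req d).card ≤ q) → Fb.card ≤ 2 * t →
  2 * ((2 * q ^ 2 + 3 * q + 1) * (t * k) + 2 * t) ≤ M →
  ∃ K : Finset (Fin M), K.card = t * k ∧ Disjoint K Fb ∧ (∀ d ∈ K, Req d ∩ K ⊆ {d}) ∧
    ∀ d, ((Req d ∩ K).erase d).card ≤ 1

/-- Job SPC: the number of special vertices. A vertex that is neither ordinary nor inner is in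
`X`, in some `A c` or `B c`, or is `P c j` with `j ∈ {1, 2}` or `m c - j ∈ {1, 2}`. -/
def S_SPC : Prop := ∀ (V : Type) [Fintype V] [DecidableEq V] (r : V → V → Prop)
  (M ℓ : ℕ) (X : Finset V) (A B : Fin M → Finset V) (m : Fin M → ℕ) (P : Fin M → ℕ → V),
  Skel r X ℓ A B m P →
  (Finset.univ \ (ord (X ∪ Finset.univ.biUnion A ∪ Finset.univ.biUnion B) m P ∪ inn m P)).card
    ≤ X.card + 2 * M * ℓ + 4 * M

/-- Job HVY (pigeonhole, from `S_SPC`): `N ≤ |N⁺(u)| ≤ |N⁺(u) ∩ ord| + ∑_h |N⁺(u) ∩ innc h| +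
7 M ℓ`. -/
def S_HVY : Prop := ∀ (V : Type) [Fintype V] [DecidableEq V] (r r' : V → V → Prop)
  [DecidableRel r'] (k M ℓ N : ℕ) (X : Finset V) (A B : Fin M → Finset V) (m : Fin M → ℕ)
  (P : Fin M → ℕ → V), Skel r X ℓ A B m P → 1 ≤ k → 1 ≤ M → 1 ≤ ℓ → X.card ≤ M →
  1000 * (k * M ^ 2 * ℓ) ≤ N → ∀ u, N ≤ (outN r' u).card →
  14 * (k * M * ℓ) ≤
    (outN r' u ∩ ord (X ∪ Finset.univ.biUnion A ∪ Finset.univ.biUnion B) m P).card ∨
  ∃ h, 14 * (k * M * ℓ) ≤ (outN r' u ∩ innc m P h).card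

/-- What a special vertex `u` has in one direction: many neighbours in the free set `F`, or `k`
neighbours of its own colour that are inner vertices outside `F`. -/
def HvC {V : Type} [Fintype V] [DecidableEq V] (r : V → V → Prop) [DecidableRel r] (k R : ℕ)
    {t M : ℕ} (m : Fin M → ℕ) (P : Fin M → ℕ → V) (F : Finset V) (f₀ : V → Fin t) (u : V) : Prop :=
  R ≤ (outN r u ∩ F).card ∨
    k ≤ ((outN r u ∩ inn m P).filter (fun v => v ∉ F ∧ f₀ v = f₀ u)).card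

/-- Job CHO (from `S_CNF`, `S_HVY`). Let `Sp c` be `A c ∪ B c` together with the `P c j`, `j ≤ m c`,
with `j ∈ {1, 2}` or `m c - j ∈ {1, 2}`; so `|Sp c| ≤ 2ℓ + 4`, and the vertices not in
`ord ∪ inn` are those of `X` and of the `Sp c`. `S_HVY` for `r` and `rv r` gives every vertex `u`
at most two heavy chains `h` (none if the first alternative holds). `Req c` = the heavy chains of
the vertices of `Sp c` (at most `4ℓ + 8`), `Fb` = the heavy chains of the vertices of `X`. `S_CNF`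
gives `K`; `g : K → Fin t` with all fibres of size `k`. For a chain `c` let `φ c = g c` if
`c ∈ K`, `φ c = g h` if `c ∉ K` and `h ∈ Req c ∩ K` (unique), `φ c = 0` otherwise.
`f₀ (x i) = i`, `f₀ v = φ c` for `v ∈ A c ∪ B c ∪ vtc m P c` (these sets are disjoint and disjoint
from `X`), `F = ord ∪ ⋃_{c ∉ K} innc c`. If `u ∈ Sp c` has a heavy chain `h ∈ K` then
`f₀ u = φ c = g h`. -/
def S_CHO : Prop := ∀ (V : Type) [Fintype V] [DecidableEq V] (r : V → V → Prop) [DecidableRel r]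
  (k t M ℓ N : ℕ) (x : Fin t → V) (A B : Fin M → Finset V) (m : Fin M → ℕ)
  (P : Fin M → ℕ → V), 1 ≤ k → 1 ≤ t → 1 ≤ ℓ →
  2 * ((2 * (4 * ℓ + 8) ^ 2 + 3 * (4 * ℓ + 8) + 1) * (t * k) + 2 * t) ≤ M →
  1000 * (k * M ^ 2 * ℓ) ≤ N → Function.Injective x →
  Skel r (Finset.univ.image x) ℓ A B m P →
  (∀ u, N ≤ (outN r u).card) → (∀ u, N ≤ (outN (rv r) u).card) →
  ∃ (K : Finset (Fin M)) (g : Fin M → Fin t) (f₀ : V → Fin t) (F : Finset V),
    (∀ i, f₀ (x i) = i) ∧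
    (∀ i, k ≤ (K.filter (fun c => g c = i)).card) ∧
    (∀ c ∈ K, ∀ v ∈ A c ∪ B c ∪ vtc m P c, v ∉ F ∧ f₀ v = g c) ∧
    (F ⊆ ord (Finset.univ.image x ∪ Finset.univ.biUnion A ∪ Finset.univ.biUnion B) m P ∪
      inn m P) ∧
    (ord (Finset.univ.image x ∪ Finset.univ.biUnion A ∪ Finset.univ.biUnion B) m P ⊆ F) ∧
    (∀ u, u ∉ ord (Finset.univ.image x ∪ Finset.univ.biUnion A ∪ Finset.univ.biUnion B) m P ∪
      inn m P → HvC r k (14 * (k * M * ℓ)) m P F f₀ u ∧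
        HvC (rv r) k (14 * (k * M * ℓ)) m P F f₀ u)

/-! ### Colourings -/

/-- Job DSJ: disjoint `k`-subsets (greedy). -/
def S_DSJ : Prop := ∀ (V κ : Type) [DecidableEq V] [DecidableEq κ] (k : ℕ) (J : Finset κ)
  (D : κ → Finset V), (∀ j ∈ J, k * J.card ≤ (D j).card) →
  ∃ E : κ → Finset V, (∀ j ∈ J, E j ⊆ D j ∧ (E j).card = k) ∧
    ∀ j ∈ J, ∀ j' ∈ J, j ≠ j' → Disjoint (E j) (E j')

/-- Job RND: union bound over all colourings `V → Fin t`. Split `D i` into `k` disjoint blocks of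
size `|D i| / k`; a colouring with fewer than `k` vertices of colour `a` in `D i` has a block
without colour `a`; the number of colourings avoiding `a` on a block `B` is
`(t-1)^|B| t^(|V|-|B|)`. -/
def S_RND : Prop := ∀ (V κ : Type) [Fintype V] [DecidableEq V] (t k : ℕ) (I : Finset κ)
  (D : κ → Finset V), 1 ≤ t → 1 ≤ k →
  ∑ i ∈ I, (t : ℝ) * k * (1 - 1 / (t : ℝ)) ^ ((D i).card / k) < 1 →
  ∃ f : V → Fin t, ∀ i ∈ I, ∀ a, k ≤ ((D i).filter (fun v => f v = a)).card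

/-- Job COL (from `S_DSJ`, `S_RND`): disjoint `k`-subsets `E j ⊆ D' j` get the colour `q j`, the
vertices outside `F` the colour of `f₀`, the others are coloured by `S_RND` applied to the sets
`D i ∖ ⋃ E j`, of size at least `|D i| - R`. -/
def S_COL : Prop := ∀ (V κ κ' : Type) [Fintype V] [DecidableEq V] [DecidableEq κ']
  (t k R : ℕ) (F : Finset V)
  (f₀ : V → Fin t) (J : Finset κ') (D' : κ' → Finset V) (q : κ' → Fin t) (I : Finset κ)
  (D : κ → Finset V), 1 ≤ t → 1 ≤ k → k * J.card ≤ R →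
  (∀ j ∈ J, D' j ⊆ F ∧ R ≤ (D' j).card) → (∀ i ∈ I, D i ⊆ F) →
  ∑ i ∈ I, (t : ℝ) * k * (1 - 1 / (t : ℝ)) ^ (((D i).card - R) / k) < 1 →
  ∃ f : V → Fin t, (∀ v, v ∉ F → f v = f₀ v) ∧
    (∀ j ∈ J, k ≤ ((D' j).filter (fun v => f v = q j)).card) ∧
    ∀ i ∈ I, ∀ a, k ≤ ((D i).filter (fun v => f v = a)).card

/-! ### Numerical lemmas -/

/-- Job SUM. For `d ≥ N ≥ 2k` the exponent is at least `d/(4k)`, and
`(1 - 1/t)^e ≤ exp (-e/t) ≤ 6 (t/e)^3`, so a term is at most `384 (tk)^4 / d^3`. From the counting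
hypothesis `∑ 1/d^2 ≤ 11/N` (partial summation). So the sum is at most `384·11 (tk)^4 / N^2`. -/
def S_SUM : Prop := ∀ (ι : Type) (I : Finset ι) (d : ι → ℕ) (t k N : ℕ), 1 ≤ t → 1 ≤ k →
  10000 * (t * k) ^ 2 ≤ N → (∀ i ∈ I, N ≤ d i) →
  (∀ e : ℕ, (I.filter (fun i => d i ≤ e)).card ≤ 2 * e + 1) →
  ∑ i ∈ I, (t : ℝ) * k * (1 - 1 / (t : ℝ)) ^ (d i / (2 * k)) ≤ 1 / 8

/-- Job SMO (from `S_SUM`, `S_CNT`): the sum over the ordinary vertices (with `d = deg⁺`) and the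
sum over the inner vertices (with `d (P c j) = (j - 2) N`, at most `M (e/N) ≤ e` of these numbers
are at most `e`) are at most `1/8`. For an ordinary `u`,
`|N⁺(u) ∩ ord ∩ Ab| - R ≥ 3d/4 - d/4`. -/
def S_SMO : Prop := ∀ (V : Type) [Fintype V] [DecidableEq V] (r : V → V → Prop) [DecidableRel r]
  (t k R N M : ℕ) (Y : Finset V) (A : Fin M → Finset V) (m : Fin M → ℕ) (P : Fin M → ℕ → V),
  Tour r → 1 ≤ t → 1 ≤ k → 10000 * (t * k) ^ 2 ≤ N → 4 * R ≤ N → M ≤ N →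
  (∀ c c' j j', j ≤ m c → j' ≤ m c' → P c j = P c' j' → c = c' ∧ j = j') →
  SkH r Y N A m P →
  ∑ u ∈ ord Y m P, (t : ℝ) * k * (1 - 1 / (t : ℝ)) ^
      (((outN r u ∩ ord Y m P ∩ Ab r A).card - R) / k) +
    ∑ u ∈ inn m P, (t : ℝ) * k * (1 - 1 / (t : ℝ)) ^
      (((outN r u ∩ ord Y m P).card - R) / k) ≤ 1 / 4

/-- Job PAR: the parameters. Let `y = t k`; the third condition follows from
`654 ℓ² y ≤ M = 2^(ℓ-5)`. Take the least such `ℓ ≥ 6`; then `2^ℓ < 64·654·ℓ² y` (or `ℓ = 6`), so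
`M < 1308 ℓ² y` and, as `ℓ⁷ ≤ C₇ 2^ℓ`, `ℓ⁵ ≤ C₇·64·654·y`; hence
`k M² ℓ ≤ 1308² k ℓ⁵ y² ≤ C k⁴ t³`. -/
def S_PAR : Prop := ∃ C : ℕ, ∀ k t : ℕ, 1 ≤ k → 1 ≤ t → ∃ ℓ M : ℕ, 1 ≤ ℓ ∧ 1 ≤ M ∧
  16 * M = 2 ^ (ℓ - 1) ∧
  2 * ((2 * (4 * ℓ + 8) ^ 2 + 3 * (4 * ℓ + 8) + 1) * (t * k) + 2 * t) ≤ M ∧
  1000 * (k * M ^ 2 * ℓ) ≤ C * k ^ 4 * t ^ 3

/-! ### Levels -/

/-- Job LEV: a criterion for `k`-strong connectivity. Given `S` with `|S| < k` some `Q c`, `c ∈ C`,
is disjoint from `S`. By induction on `lev u` every `u ∈ U∖S` reaches `s c` inside `U∖S`; by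
induction on `lev' u` every `u ∈ U∖S` is reached from `ρ c`; and `s c` reaches `ρ c`.
`|U| ≥ 2k`. -/
def S_LEV : Prop := ∀ (V ι : Type) [DecidableEq V] (r : V → V → Prop)
  [DecidableRel r] (U : Finset V) (k : ℕ) (C : Finset ι) (Q : ι → Finset V) (s ρ : ι → V)
  (lev lev' : V → ℕ), 1 ≤ k → k ≤ C.card → (∀ c ∈ C, Q c ⊆ U) →
  (∀ c ∈ C, ∀ c' ∈ C, c ≠ c' → Disjoint (Q c) (Q c')) →
  (∀ c ∈ C, s c ∈ Q c) → (∀ c ∈ C, ρ c ∈ Q c) → (∀ c ∈ C, s c ≠ ρ c) →
  (∀ c ∈ C, Rch r (Q c) (s c) (ρ c)) →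
  (∀ u ∈ U, lev u = 0 → ∀ c ∈ C, ∃ a ∈ Q c, r u a ∧ Rch r (Q c) a (s c)) →
  (∀ u ∈ U, 0 < lev u → k ≤ (U.filter (fun v => r u v ∧ lev v < lev u)).card) →
  (∀ u ∈ U, lev' u = 0 → ∀ c ∈ C, ∃ b ∈ Q c, r b u ∧ Rch r (Q c) (ρ c) b) →
  (∀ u ∈ U, 0 < lev' u → k ≤ (U.filter (fun v => r v u ∧ lev' v < lev' u)).card) →
  KS r k U

/-- The main theorem, in the form of a colouring. -/
def S_MAIN : Prop := ∃ C : ℕ, ∀ (k t : ℕ), 1 ≤ k → 1 ≤ t → ∀ (V : Type) [Fintype V]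
  [DecidableEq V] (r : V → V → Prop), Tour r → ∀ N : ℕ, C * k ^ 4 * t ^ 3 ≤ N →
  KS r N Finset.univ →
  ∀ x : Fin t → V, Function.Injective x →
  ∃ f : V → Fin t, (∀ i, f (x i) = i) ∧ ∀ i, KS r k (Finset.univ.filter (fun v => f v = i))

end Pool.Agent.Q125.PV
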