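import Pool.Agent.Q125.PV.MAIN
import Pool.Agent.Q96.PV.BAS
import Pool.Agent.Q96.PV.FO
import Pool.Agent.Q96.PV.POT
import Pool.Agent.Q96.PV.ORB
import Pool.Agent.Q96.PV.CUT
import Pool.Agent.Q298.PV.FAM
import Pool.Agent.Q298.PV.DUL
import Pool.Agent.Q298.PV.SKL
import Pool.Agent.Q298.PV.HVY
import Pool.Agent.Q298.PV.SMO
import Pool.Agent.Q285.PV.ASG
import Pool.Agent.Q285.PV.LKH
import Pool.Agent.Q285.PV.LNK
import Pool.Agent.Q153.PV.Hal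
import Pool.Agent.Q153.PV.Cls
import Pool.Agent.Q153.PV.Lnu
import Pool.Agent.Q153.PV.Skh
import Pool.Agent.Q153.PV.COL
import Pool.Agent.Q275.PV.CHO
import Pool.Agent.Q275.PV.RND
import Pool.Agent.Q275.PV.SUM
import Pool.Agent.Q238.PV.CNF
import Pool.Agent.Q238.PV.PAR
import Pool.Agent.Q238.PV.LEV

set_option autoImplicit false

/-!
Project PV (`MP_a8780a_co`): all parts put together.
-/

namespace Pool.Agent.Q125.PV

theorem all_ASG : S_ASG := Pool.Agent.Q285.PV.t_ASG Pool.Agent.Q96.PV.t_POT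

theorem all_DUL : S_DUL :=
  Pool.Agent.Q298.PV.t_DUL all_ASG Pool.Agent.Q96.PV.t_ORB Pool.Agent.Q153.PV.t_CLS

theorem all_LKH : S_LKH := Pool.Agent.Q285.PV.t_LKH all_DUL Pool.Agent.Q96.PV.t_CUT

theorem all_LNK : S_LNK :=
  Pool.Agent.Q285.PV.t_LNK Pool.Agent.Q153.PV.t_HAL Pool.Agent.Q96.PV.t_ORB all_LKH
    Pool.Agent.Q96.PV.t_REV

theorem all_LNU : S_LNU := Pool.Agent.Q153.PV.t_LNU all_LNK

theorem all_SKL : S_SKL :=
  Pool.Agent.Q298.PV.t_SKL (Pool.Agent.Q298.PV.t_FAM Pool.Agent.Q96.PV.t_FO) all_LNU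
    Pool.Agent.Q153.PV.t_SKH Pool.Agent.Q96.PV.t_DEG Pool.Agent.Q96.PV.t_STR
    Pool.Agent.Q96.PV.t_REV

theorem all_CHO : S_CHO :=
  Pool.Agent.Q275.PV.t_CHO (Pool.Agent.Q238.PV.t_CNF Pool.Agent.Q238.PV.t_IND)
    (Pool.Agent.Q298.PV.t_HVY Pool.Agent.Q298.PV.t_SPC)

theorem all_COL : S_COL :=
  Pool.Agent.Q153.PV.t_COL Pool.Agent.Q153.PV.t_DSJ Pool.Agent.Q275.PV.t_RND

theorem all_SMO : S_SMO :=
  Pool.Agent.Q298.PV.t_SMO Pool.Agent.Q275.PV.t_SUM Pool.Agent.Q96.PV.t_CNT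

theorem main : S_MAIN :=
  t_MAIN Pool.Agent.Q238.PV.t_PAR all_SKL all_CHO all_COL all_SMO Pool.Agent.Q298.PV.t_SPC
    Pool.Agent.Q238.PV.t_LEV Pool.Agent.Q96.PV.t_REV Pool.Agent.Q96.PV.t_DEG

end Pool.Agent.Q125.PV
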