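import Pool.Agent.Q125.PV.Stm
import Mathlib.Data.Finset.Sum
import Mathlib.Tactic.Linarith
import Mathlib.Tactic.Ring
import Mathlib.Tactic.NormNum
import Mathlib.Tactic.FieldSimp
import Mathlib.Tactic.Positivity
import Mathlib.Tactic.ByContra
import Mathlib.Tactic.Push
import Mathlib.Data.Fintype.Prod
import Mathlib.Data.Fintype.Sum
import Mathlib.Algebra.BigOperators.Ring.Finset

set_option autoImplicit false

namespace Pool.Agent.Q125.PV

open Finset

theorem rch_mono {V : Type} {r : V → V → Prop} {U U' : Finset V} (h : U ⊆ U') {u v : V}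
    (huv : Rch r U u v) : Rch r U' u v := by
  unfold Rch at *
  induction huv with
  | refl => exact Relation.ReflTransGen.refl
  | tail _ hab ih => exact ih.tail ⟨h hab.1, h hab.2.1, hab.2.2⟩

theorem mem_vtc {V : Type} [DecidableEq V] {M : ℕ} {m : Fin M → ℕ} {P : Fin M → ℕ → V}
    {c : Fin M} {v : V} : v ∈ vtc m P c ↔ ∃ j, j ≤ m c ∧ P c j = v := by
  unfold vtc
  simp only [mem_image, mem_range]
  constructor
  · rintro ⟨j, hj, rfl⟩
    exact ⟨j, by omega, rfl⟩
  · rintro ⟨j, hj, rfl⟩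
    exact ⟨j, by omega, rfl⟩

theorem mem_vts {V : Type} [DecidableEq V] {M : ℕ} {m : Fin M → ℕ} {P : Fin M → ℕ → V}
    {v : V} : v ∈ vts m P ↔ ∃ c j, j ≤ m c ∧ P c j = v := by
  unfold vts
  simp only [mem_biUnion, mem_univ, true_and, mem_vtc]

theorem mem_inn {V : Type} [DecidableEq V] {M : ℕ} {m : Fin M → ℕ} {P : Fin M → ℕ → V}
    {v : V} : v ∈ inn m P ↔ ∃ c j, 3 ≤ j ∧ j + 3 ≤ m c ∧ P c j = v := by
  unfold inn innc
  simp only [mem_biUnion, mem_univ, true_and, mem_image, mem_filter, mem_range]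
  constructor
  · rintro ⟨c, j, ⟨_, h1, h2⟩, rfl⟩
    exact ⟨c, j, h1, h2, rfl⟩
  · rintro ⟨c, j, h1, h2, rfl⟩
    exact ⟨c, j, ⟨by omega, h1, h2⟩, rfl⟩

section skel

variable {V : Type} [DecidableEq V] {r : V → V → Prop} {X : Finset V} {ℓ M : ℕ}
  {A B : Fin M → Finset V} {m : Fin M → ℕ} {P : Fin M → ℕ → V}

/-- a path vertex in `A c` is the first vertex of the path of `c` -/
theorem Skel.inA (hS : Skel r X ℓ A B m P) {c c' : Fin M} {j : ℕ} (hj : j ≤ m c')
    (h : P c' j ∈ A c) : c = c' := by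
  by_contra hc
  rcases Nat.eq_zero_or_pos j with h0 | h0
  · subst h0
    exact (Finset.disjoint_left.mp (hS.dA c c' hc)) h (hS.pA c')
  · rcases lt_or_eq_of_le hj with h1 | h1
    · apply hS.mid c' j h0 h1
      simp only [mem_union, mem_biUnion, mem_univ, true_and]
      exact Or.inl (Or.inr ⟨c, h⟩)
    · subst h1
      exact (Finset.disjoint_left.mp (hS.dAB c c')) h (hS.pB c')

theorem Skel.inB (hS : Skel r X ℓ A B m P) {c c' : Fin M} {j : ℕ} (hj : j ≤ m c')
    (h : P c' j ∈ B c) : c = c' := by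
  by_contra hc
  rcases Nat.eq_zero_or_pos j with h0 | h0
  · subst h0
    exact (Finset.disjoint_left.mp (hS.dAB c' c)) (hS.pA c') h
  · rcases lt_or_eq_of_le hj with h1 | h1
    · apply hS.mid c' j h0 h1
      simp only [mem_union, mem_biUnion, mem_univ, true_and]
      exact Or.inr ⟨c, h⟩
    · subst h1
      exact (Finset.disjoint_left.mp (hS.dB c c' hc)) h (hS.pB c')

theorem Skel.disjQ (hS : Skel r X ℓ A B m P) {c c' : Fin M} (hc : c ≠ c') :
    Disjoint (A c ∪ B c ∪ vtc m P c) (A c' ∪ B c' ∪ vtc m P c') := by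
  rw [Finset.disjoint_left]
  intro v hv hv'
  simp only [mem_union, mem_vtc] at hv hv'
  rcases hv with (hv | hv) | ⟨j, hj, rfl⟩
  · rcases hv' with (hv' | hv') | ⟨j', hj', rfl⟩
    · exact (Finset.disjoint_left.mp (hS.dA c c' hc)) hv hv'
    · exact (Finset.disjoint_left.mp (hS.dAB c c')) hv hv'
    · exact hc (hS.inA hj' hv)
  · rcases hv' with (hv' | hv') | ⟨j', hj', rfl⟩
    · exact (Finset.disjoint_left.mp (hS.dAB c' c)) hv' hv
    · exact (Finset.disjoint_left.mp (hS.dB c c' hc)) hv hv'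
    · exact hc (hS.inB hj' hv)
  · rcases hv' with (hv' | hv') | ⟨j', hj', h⟩
    · exact hc (hS.inA hj hv').symm
    · exact hc (hS.inB hj hv').symm
    · exact hc (hS.inj c' c j' j hj' hj h).1.symm

theorem Skel.walk (hS : Skel r X ℓ A B m P) (c : Fin M) :
    Rch r (A c ∪ B c ∪ vtc m P c) (P c 0) (P c (m c)) := by
  have key : ∀ j, j ≤ m c → Rch r (A c ∪ B c ∪ vtc m P c) (P c 0) (P c j) := by
    intro j
    induction j with
    | zero => intro _; exact Relation.ReflTransGen.refl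
    | succ j ih =>
      intro hj
      refine Relation.ReflTransGen.tail (ih (by omega)) ⟨?_, ?_, hS.arc c j (by omega)⟩
      · exact mem_union_right _ (mem_vtc.mpr ⟨j, by omega, rfl⟩)
      · exact mem_union_right _ (mem_vtc.mpr ⟨j + 1, by omega, rfl⟩)
  exact key (m c) le_rfl

theorem Skel.inn_not (hS : Skel r X ℓ A B m P) {v : V} (hv : v ∈ inn m P) :
    v ∉ X ∪ Finset.univ.biUnion A ∪ Finset.univ.biUnion B := by
  obtain ⟨c, j, h1, h2, rfl⟩ := mem_inn.mp hv
  exact hS.mid c j (by omega) (by omega)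

end skel

/-- the level function -/
noncomputable def lv {V : Type} [Fintype V] [DecidableEq V] (r : V → V → Prop) [DecidableRel r]
    (Y : Finset V) {M : ℕ} (A : Fin M → Finset V) (m : Fin M → ℕ) (P : Fin M → ℕ → V) (u : V) : ℕ :=
  if u ∈ ord Y m P then (if u ∈ Ab r A then 0 else 1) else if u ∈ inn m P then 2 else 3

theorem lv_pos {V : Type} [Fintype V] [DecidableEq V] (r : V → V → Prop) [DecidableRel r]
    (Y : Finset V) {M t : ℕ} (k R : ℕ) (A : Fin M → Finset V) (m : Fin M → ℕ)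
    (P : Fin M → ℕ → V) (F : Finset V) (f₀ f : V → Fin t)
    (hF : F ⊆ ord Y m P ∪ inn m P) (c1 : ∀ v, v ∉ F → f v = f₀ v)
    (c2 : ∀ u, u ∉ ord Y m P ∪ inn m P → R ≤ (outN r u ∩ F).card →
      k ≤ ((outN r u ∩ F).filter (fun v => f v = f₀ u)).card)
    (c3 : ∀ u ∈ ord Y m P, ∀ a,
      k ≤ ((outN r u ∩ ord Y m P ∩ Ab r A).filter (fun v => f v = a)).card)
    (c4 : ∀ u ∈ inn m P, ∀ a, k ≤ ((outN r u ∩ ord Y m P).filter (fun v => f v = a)).card)
    (c5 : ∀ u, u ∉ ord Y m P ∪ inn m P → HvC r k R m P F f₀ u) (i : Fin t) :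
    ∀ u ∈ univ.filter (fun v => f v = i), 0 < lv r Y A m P u →
      k ≤ ((univ.filter (fun v => f v = i)).filter
        (fun v => r u v ∧ lv r Y A m P v < lv r Y A m P u)).card := by
  intro u hu hpos
  have hui : f u = i := (mem_filter.mp hu).2
  have hdisj : ∀ v ∈ inn m P, v ∉ ord Y m P := by
    intro v hv hv'
    obtain ⟨c, j, h1, h2, rfl⟩ := mem_inn.mp hv
    unfold ord at hv'
    rw [mem_sdiff] at hv'
    exact hv'.2 (mem_union_right _ (mem_vts.mpr ⟨c, j, by omega, rfl⟩))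
  by_cases h1 : u ∈ ord Y m P
  · -- then the level is one
    have hlu : lv r Y A m P u = 1 := by
      unfold lv at hpos ⊢
      rw [if_pos h1] at hpos ⊢
      split_ifs at hpos ⊢ with h
      · omega
      · rfl
    refine le_trans (c3 u h1 i) (card_le_card ?_)
    intro v hv
    simp only [mem_filter, mem_inter] at hv
    obtain ⟨⟨⟨hv1, hv2⟩, hv3⟩, hv4⟩ := hv
    have hlv : lv r Y A m P v = 0 := by
      unfold lv
      rw [if_pos hv2, if_pos hv3]
    simp only [mem_filter, mem_univ, true_and]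
    refine ⟨hv4, ?_, ?_⟩
    · unfold outN at hv1
      exact (mem_filter.mp hv1).2
    · omega
  · by_cases h2 : u ∈ inn m P
    · have hlu : lv r Y A m P u = 2 := by
        unfold lv
        rw [if_neg h1, if_pos h2]
      refine le_trans (c4 u h2 i) (card_le_card ?_)
      intro v hv
      simp only [mem_filter, mem_inter] at hv
      obtain ⟨⟨hv1, hv2⟩, hv4⟩ := hv
      have hlv : lv r Y A m P v ≤ 1 := by
        unfold lv
        rw [if_pos hv2]
        split_ifs <;> omega
      simp only [mem_filter, mem_univ, true_and]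
      refine ⟨hv4, ?_, ?_⟩
      · unfold outN at hv1
        exact (mem_filter.mp hv1).2
      · omega
    · have hlu : lv r Y A m P u = 3 := by
        unfold lv
        rw [if_neg h1, if_neg h2]
      have hsp : u ∉ ord Y m P ∪ inn m P := by
        rw [mem_union]
        push Not
        exact ⟨h1, h2⟩
      have huF : u ∉ F := fun h => hsp (hF h)
      have hfu : f₀ u = i := by rw [← c1 u huF, hui]
      have hlev : ∀ v ∈ ord Y m P ∪ inn m P, lv r Y A m P v < 3 := by
        intro v hv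
        unfold lv
        rw [mem_union] at hv
        by_cases hv1 : v ∈ ord Y m P
        · rw [if_pos hv1]
          split_ifs <;> omega
        · rw [if_neg hv1, if_pos (hv.resolve_left hv1)]
          omega
      rcases c5 u hsp with h | h
      · refine le_trans (c2 u hsp h) (card_le_card ?_)
        intro v hv
        simp only [mem_filter, mem_inter] at hv
        obtain ⟨⟨hv1, hv2⟩, hv3⟩ := hv
        simp only [mem_filter, mem_univ, true_and]
        refine ⟨by rw [hv3, hfu], ?_, ?_⟩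
        · unfold outN at hv1
          exact (mem_filter.mp hv1).2
        · rw [hlu]
          exact hlev v (hF hv2)
      · refine le_trans h (card_le_card ?_)
        intro v hv
        simp only [mem_filter, mem_inter] at hv
        obtain ⟨⟨hv1, hv2⟩, hv3, hv4⟩ := hv
        simp only [mem_filter, mem_univ, true_and]
        refine ⟨by rw [c1 v hv3, hv4, hfu], ?_, ?_⟩
        · unfold outN at hv1
          exact (mem_filter.mp hv1).2
        · rw [hlu]
          exact hlev v (mem_union_right _ hv2)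

theorem lv_zero {V : Type} [Fintype V] [DecidableEq V] (r : V → V → Prop) [DecidableRel r]
    (Y : Finset V) {M : ℕ} (A : Fin M → Finset V) (m : Fin M → ℕ) (P : Fin M → ℕ → V) (u : V)
    (h : lv r Y A m P u = 0) (c : Fin M) : ∃ a ∈ A c, r u a := by
  unfold lv at h
  split_ifs at h with h1 h2
  unfold Ab at h2
  exact (mem_filter.mp h2).2 c

/-- the reversed path system has distinct vertices -/
theorem revP_inj {V : Type} {M : ℕ} {m : Fin M → ℕ} {P : Fin M → ℕ → V}
    (h : ∀ c c' j j', j ≤ m c → j' ≤ m c' → P c j = P c' j' → c = c' ∧ j = j') :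
    ∀ c c' j j', j ≤ m c → j' ≤ m c' → revP m P c j = revP m P c' j' → c = c' ∧ j = j' := by
  intro c c' j j' hj hj' he
  unfold revP at he
  obtain ⟨h1, h2⟩ := h c c' (m c - j) (m c' - j') (by omega) (by omega) he
  subst h1
  exact ⟨rfl, by omega⟩

theorem t_MAIN : S_PAR → S_SKL → S_CHO → S_COL → S_SMO → S_SPC → S_LEV → S_REV → S_DEG →
    S_MAIN := by
  intro hPAR hSKL hCHO hCOL hSMO hSPC hLEV hREV hDEG
  obtain ⟨C, hC⟩ := hPAR
  refine ⟨C, fun k t hk ht V _ _ r hT N hN hKS x hx => ?_⟩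
  classical
  obtain ⟨ℓ, M, hℓ, hM, h16, hcnf, hbig⟩ := hC k t hk ht
  have hN' : 1000 * (k * M ^ 2 * ℓ) ≤ N := le_trans hbig hN
  have htk : 325 * (t * k) * 2 + 4 * t ≤ M := by
    refine le_trans ?_ hcnf
    have h1 : 325 ≤ 2 * (4 * ℓ + 8) ^ 2 + 3 * (4 * ℓ + 8) + 1 := by nlinarith
    nlinarith [Nat.mul_le_mul_right (t * k) h1]
  have htM : t ≤ M := by nlinarith
  have hMM : M ≤ M ^ 2 := by nlinarith
  have hkl : 1 ≤ k * ℓ := Nat.one_le_iff_ne_zero.mpr (by positivity)
  have hkM : k * M * ℓ ≤ k * M ^ 2 * ℓ := by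
    have : k * M ≤ k * M ^ 2 := Nat.mul_le_mul_left k hMM
    exact Nat.mul_le_mul_right ℓ this
  have hR : 4 * (14 * (k * M * ℓ)) ≤ N := by omega
  have hMN : M ≤ N := by
    have : M ≤ k * M * ℓ := by
      calc M = M * 1 := (mul_one M).symm
        _ ≤ M * (k * ℓ) := Nat.mul_le_mul_left M hkl
        _ = k * M * ℓ := by ring
    omega
  have hN4 : 10000 * (t * k) ^ 2 ≤ N := by
    have h1 : (650 * (t * k)) ^ 2 ≤ M ^ 2 := Nat.pow_le_pow_left (by omega) 2
    have h2 : M ^ 2 ≤ k * M ^ 2 * ℓ := by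
      calc M ^ 2 = M ^ 2 * 1 := (mul_one _).symm
        _ ≤ M ^ 2 * (k * ℓ) := Nat.mul_le_mul_left _ hkl
        _ = k * M ^ 2 * ℓ := by ring
    have h3 : (650 * (t * k)) ^ 2 = 422500 * (t * k) ^ 2 := by ring
    nlinarith
  obtain ⟨A, B, m, P, hS, hH, hH'⟩ := hSKL V r k t M ℓ N x hT hKS hx hk hM hℓ htM h16 hN'
  have hdr : ∀ u, N ≤ (outN (rv r) u).card :=
    hDEG V (rv r) ((hREV V r).1 hT) N ((hREV V r).2.1 N _ hKS)
  obtain ⟨K, g, f₀, F, h1, h2, h3, h4, h5, h6⟩ := hCHO V r k t M ℓ N x A B m P hk ht hℓ hcnf hN' hx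
    hS hH.deg hdr
  have hspc := hSPC V r M ℓ _ A B m P hS
  obtain ⟨hv1, hv2, hv3, hv4, -⟩ := (hREV V r).2.2 M m P
  set Y := Finset.univ.image x ∪ Finset.univ.biUnion A ∪ Finset.univ.biUnion B with hY
  have hord : ord Y m (revP m P) = ord Y m P := by
    unfold ord
    rw [hv1]
  set R := 14 * (k * M * ℓ) with hRdef
  -- the sums
  have hs1 := hSMO V r t k R N M Y A m P hT ht hk hN4 hR hMN hS.inj hH
  have hs2 := hSMO V (rv r) t k R N M Y B m (revP m P) ((hREV V r).1 hT) ht hk hN4 hR hMN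
    (revP_inj hS.inj) hH'
  rw [hord, hv2] at hs2
  -- the reservations
  let nb : V × Bool → Finset V := fun p => if p.2 then outN r p.1 else outN (rv r) p.1
  let J : Finset (V × Bool) := ((univ \ (ord Y m P ∪ inn m P)) ×ˢ univ).filter
    (fun p => R ≤ (nb p ∩ F).card)
  have hJ : k * J.card ≤ R := by
    have hJ1 : J.card ≤ (univ \ (ord Y m P ∪ inn m P)).card * 2 := by
      refine le_trans (card_filter_le _ _) ?_
      rw [card_product]
      simp
    have hX : (Finset.univ.image x).card ≤ t := by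
      refine le_trans card_image_le ?_
      simp
    have h7 : (univ \ (ord Y m P ∪ inn m P)).card ≤ 7 * (M * ℓ) := by
      have : M ≤ M * ℓ := Nat.le_mul_of_pos_right M hℓ
      have h8 : 2 * M * ℓ = 2 * (M * ℓ) := by ring
      omega
    have h9 : k * J.card ≤ k * (14 * (M * ℓ)) := Nat.mul_le_mul_left k (by omega)
    refine le_trans h9 (le_of_eq ?_)
    rw [hRdef]
    ring
  let I : Finset ((V ⊕ V) ⊕ (V ⊕ V)) :=
    ((ord Y m P).disjSum (inn m P)).disjSum ((ord Y m P).disjSum (inn m P))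
  let D : (V ⊕ V) ⊕ (V ⊕ V) → Finset V := fun p => match p with
    | Sum.inl (Sum.inl u) => outN r u ∩ ord Y m P ∩ Ab r A
    | Sum.inl (Sum.inr u) => outN r u ∩ ord Y m P
    | Sum.inr (Sum.inl u) => outN (rv r) u ∩ ord Y m P ∩ Ab (rv r) B
    | Sum.inr (Sum.inr u) => outN (rv r) u ∩ ord Y m P
  have hsum : ∑ i ∈ I, (t : ℝ) * k * (1 - 1 / (t : ℝ)) ^ (((D i).card - R) / k) < 1 := by
    show ∑ i ∈ ((ord Y m P).disjSum (inn m P)).disjSum ((ord Y m P).disjSum (inn m P)),
      (t : ℝ) * k * (1 - 1 / (t : ℝ)) ^ (((D i).card - R) / k) < 1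
    rw [Finset.sum_disjSum, Finset.sum_disjSum, Finset.sum_disjSum]
    have e1 : ∑ x ∈ ord Y m P, (t : ℝ) * k * (1 - 1 / (t : ℝ)) ^
        (((D (Sum.inl (Sum.inl x))).card - R) / k) + ∑ x ∈ inn m P, (t : ℝ) * k *
        (1 - 1 / (t : ℝ)) ^ (((D (Sum.inl (Sum.inr x))).card - R) / k) ≤ 1 / 4 := hs1
    have e2 : ∑ x ∈ ord Y m P, (t : ℝ) * k * (1 - 1 / (t : ℝ)) ^
        (((D (Sum.inr (Sum.inl x))).card - R) / k) + ∑ x ∈ inn m P, (t : ℝ) * k *
        (1 - 1 / (t : ℝ)) ^ (((D (Sum.inr (Sum.inr x))).card - R) / k) ≤ 1 / 4 := hs2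
    linarith
  have hDF : ∀ i ∈ I, D i ⊆ F := by
    intro i _
    rcases i with (u | u) | (u | u)
    · exact (inter_subset_left.trans inter_subset_right).trans h5
    · exact inter_subset_right.trans h5
    · exact (inter_subset_left.trans inter_subset_right).trans h5
    · exact inter_subset_right.trans h5
  obtain ⟨f, c1, c2, c3⟩ := hCOL V ((V ⊕ V) ⊕ (V ⊕ V)) (V × Bool) t k R F f₀ J
    (fun p => nb p ∩ F) (fun p => f₀ p.1) I D ht hk hJ
    (fun j hj => ⟨inter_subset_right, (mem_filter.mp hj).2⟩) hDF hsum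
  have hxF : ∀ i, x i ∉ F := by
    intro i hi
    have hxY : x i ∈ Y := by
      rw [hY]
      simp
    rcases mem_union.mp (h4 hi) with h | h
    · unfold ord at h
      rw [mem_sdiff] at h
      exact h.2 (mem_union_left _ hxY)
    · exact hS.inn_not h hxY
  refine ⟨f, fun i => ?_, fun i => ?_⟩
  · rw [c1 _ (hxF i), h1 i]
  -- the two versions of the level lemma
  have L1 := lv_pos r Y k R A m P F f₀ f h4 c1
    (fun u hu hR => c2 (u, true) (mem_filter.mpr ⟨mem_product.mpr
      ⟨mem_sdiff.mpr ⟨mem_univ _, hu⟩, mem_univ _⟩, hR⟩))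
    (fun u hu a => c3 (Sum.inl (Sum.inl u)) (by
      simp only [I, Finset.inl_mem_disjSum]
      exact hu) a)
    (fun u hu a => c3 (Sum.inl (Sum.inr u)) (by
      simp only [I, Finset.inl_mem_disjSum, Finset.inr_mem_disjSum]
      exact hu) a)
    (fun u hu => (h6 u hu).1) i
  have L2 := lv_pos (rv r) Y k R B m P F f₀ f h4 c1
    (fun u hu hR => c2 (u, false) (mem_filter.mpr ⟨mem_product.mpr
      ⟨mem_sdiff.mpr ⟨mem_univ _, hu⟩, mem_univ _⟩, hR⟩))
    (fun u hu a => c3 (Sum.inr (Sum.inl u)) (by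
      simp only [I, Finset.inl_mem_disjSum, Finset.inr_mem_disjSum]
      exact hu) a)
    (fun u hu a => c3 (Sum.inr (Sum.inr u)) (by
      simp only [I, Finset.inr_mem_disjSum]
      exact hu) a)
    (fun u hu => (h6 u hu).2) i
  have hQ : ∀ c ∈ K.filter (fun c => g c = i),
      A c ∪ B c ∪ vtc m P c ⊆ univ.filter (fun v => f v = i) := by
    intro c hc v hv
    rw [mem_filter] at hc
    obtain ⟨hvF, hvg⟩ := h3 c hc.1 v hv
    rw [mem_filter]
    exact ⟨mem_univ _, by rw [c1 v hvF, hvg, hc.2]⟩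
  refine hLEV V (Fin M) r (univ.filter (fun v => f v = i)) k (K.filter (fun c => g c = i))
    (fun c => A c ∪ B c ∪ vtc m P c) (fun c => P c 0) (fun c => P c (m c))
    (lv r Y A m P) (lv (rv r) Y B m P) hk (h2 i) hQ
    (fun c _ c' _ hcc => hS.disjQ hcc)
    (fun c _ => mem_union_left _ (mem_union_left _ (hS.pA c)))
    (fun c _ => mem_union_left _ (mem_union_right _ (hS.pB c)))
    (fun c _ h => ?_) (fun c _ => hS.walk c) ?_ L1 ?_ L2
  · have h7 := (hS.inj c c 0 (m c) (Nat.zero_le _) le_rfl h).2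
    have h8 := hS.pos c
    omega
  · intro u _ hu c _
    obtain ⟨a, ha, hua⟩ := lv_zero r Y A m P u hu c
    refine ⟨a, mem_union_left _ (mem_union_left _ ha), hua, ?_⟩
    by_cases hac : a = P c 0
    · rw [hac]
      exact Relation.ReflTransGen.refl
    · exact Relation.ReflTransGen.single ⟨mem_union_left _ (mem_union_left _ ha),
        mem_union_left _ (mem_union_left _ (hS.pA c)), hS.snk c a ha hac⟩
  · intro u _ hu c _
    obtain ⟨b, hb, hub⟩ := lv_zero (rv r) Y B m P u hu c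
    refine ⟨b, mem_union_left _ (mem_union_right _ hb), hub, ?_⟩
    by_cases hbc : b = P c (m c)
    · rw [hbc]
      exact Relation.ReflTransGen.refl
    · exact Relation.ReflTransGen.single ⟨mem_union_left _ (mem_union_right _ (hS.pB c)),
        mem_union_left _ (mem_union_right _ hb), hS.src c b hb hbc⟩

end Pool.Agent.Q125.PV
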